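import Pool.Agent.V113.Gol.Conv

/-!
# MP_5d828d_al: a Golod Artinian graded ring of type two and height three

Let `k` be any field and `I ⊆ k[x, y, z]` the ideal of the polynomials `F` without terms of degree
at most two whose coefficients satisfy `c(x³) + c(y²z) = 0` and `c(xz²) + c(xy²) = 0`. Then
`𝔪⁴ ⊆ I ⊆ 𝔪³`, `R = k[x, y, z]/I` is Artinian (dimensions `1, 3, 6, 2`), its socle has dimension
`2`, and every cycle of positive degree of the Koszul complex is homologous to one in `𝔪² K`, so
that the products of these cycles are zero and `R` is Golod.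

The definitions are in `Pool.Agent.V113.Gol.Stmt`.
-/

set_option autoImplicit false

namespace Pool.Agent.Results.MP_5d828d_al.TypeTwoHeightThree

open Pool.Agent.V113.Gol

universe u

/-- **The result.** -/
theorem result (k : Type u) [Field k] : ∃ I : Ideal (MvPolynomial (Fin 3) k),
    Stmt.IsHomog I ∧ I ≤ Stmt.vars k 3 ^ 2 ∧ Stmt.dimQ I = 0 ∧ Stmt.depthQ I = 0 ∧
      Stmt.IsGolod I ∧ Stmt.typeQ I = 2 ∧ I.height = 3 :=
  ⟨I0 k, homog_I0, I0_le.trans (Ideal.pow_le_pow_right (by norm_num)), dim_eq, depth_eq,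
    Conv.conv _ golod_I0, type_eq, height_eq⟩

end Pool.Agent.Results.MP_5d828d_al.TypeTwoHeightThree
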